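import Pool.Agent.helper54.V3.SpecG
import Pool.Agent.helper74.MP.MA

/-!
# Module GEI of project v3: (MP_af9036_an): the energy of one datum on compact subsets of `Reg D`
-/

set_option autoImplicit false

open Complex Metric Set Filter Topology MeasureTheory MPS V3

noncomputable section

namespace V3S

theorem GEI_int (μ : Measure ℂ) (f : ℂ → ℝ) (A : ℝ) (hA : 0 ≤ A)
    (h : ∫⁻ x, ENNReal.ofReal (f x) ∂μ ≤ ENNReal.ofReal A) : ∫ x, f x ∂μ ≤ A := by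
  by_cases hf : Integrable f μ
  · rw [integral_eq_lintegral_pos_part_sub_lintegral_neg_part hf]
    have h1 : (∫⁻ x, ENNReal.ofReal (f x) ∂μ).toReal ≤ A := ENNReal.toReal_le_of_le_ofReal hA h
    have h2 : 0 ≤ (∫⁻ x, ENNReal.ofReal (-f x) ∂μ).toReal := ENNReal.toReal_nonneg
    linarith
  · rw [integral_undef hf]
    exact hA

/-- the pointwise inequality in the `x`-plane. -/
theorem GEI_point (hGEP : GEP_stmt) (hBA1 : BA1_stmt) (hBA2 : BA2_stmt) (n : ℕ) (ra : ℝ) (Cf : ℝ → ℝ)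
    (D : Dat) (hG : D.Good n ra Cf) (x : ℂ) (c1 : deriv (D.F D.k) x ≠ 0)
    (c2 : ∀ l, D.F D.k x ≠ D.p l) (c3 : D.T D.k x ≠ 0) :
    ‖D.lam‖ * D.en x ≤ (∑ q ∈ Finset.range D.k,
      PPS.dens D.f D.b D.g ((fun y => D.f.eval y)^[D.k - q]) (D.zz x)) * ‖D.sg‖ ^ 2 := by
  obtain ⟨hsg, hlam, -, -, -, -, -, -, hder, hzF, -⟩ := hBA1 n ra Cf D hG
  obtain ⟨-, -, -, hzz, -⟩ := hBA2 n ra Cf D hG
  have hdeg : 1 ≤ D.f.natDegree := by
    rw [hG.hdeg]
    exact le_trans (by norm_num) hG.hn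
  set τ : ℂ := deriv ((fun y => D.f.eval y)^[D.k]) (D.zz x) ^ 2 *
    BB D.b D.g ((fun y => D.f.eval y)^[D.k] (D.zz x)) with hτ
  have hT : D.T D.k x = D.sg ^ 2 * τ := by
    unfold Dat.T Dat.B
    rw [hzF, hder, hτ]
    ring
  have hτ0 : τ ≠ 0 := by
    intro h
    rw [h, mul_zero] at hT
    exact c3 hT
  have hBB : BB D.b D.g ((fun y => D.f.eval y)^[D.k] (D.zz x)) ≠ 0 := by
    intro h
    apply hτ0
    rw [hτ, h, mul_zero]
  have h := hGEP D.k D.f D.b D.g hdeg hG.cyc (D.zz x) (by rw [← hder]; exact c1)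
    (fun i hi => c2 i ((hzz _ i).1 (by rw [hzF]; exact hi))) hBB
  rw [← hτ] at h
  set w : ℂ := τ - BB D.b D.g (D.zz x) with hw
  have hq : D.lam * D.q x = D.sg ^ 2 * w := by
    unfold Dat.q
    rw [hT, mul_div_cancel₀ _ hlam, hw]
    unfold Dat.B
    ring
  have hn0 : ((‖D.lam‖ : ℝ) : ℂ) ≠ 0 := by
    exact_mod_cast (norm_pos_iff.2 hlam).ne'
  have hen : ‖D.lam‖ * D.en x = ‖D.sg‖ ^ 2 * (‖w‖ - (w * (((‖τ‖ : ℝ) : ℂ) / τ)).re) := by
    unfold Dat.en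
    rw [mul_sub, ← norm_mul, hq, norm_mul, norm_pow, mul_sub]
    congr 1
    rw [← Complex.re_ofReal_mul, ← Complex.re_ofReal_mul]
    congr 1
    have h1 : ((‖D.lam‖ : ℝ) : ℂ) * (D.lam / ((‖D.lam‖ : ℝ) : ℂ) * D.q x *
        (((‖D.T D.k x‖ : ℝ) : ℂ) / D.T D.k x)) = (D.lam * D.q x) * (((‖D.T D.k x‖ : ℝ) : ℂ) / D.T D.k x) := by
      field_simp
    rw [h1, hq, hT, norm_mul, norm_pow]
    push_cast
    field_simp
  rw [hen, mul_comm]
  exact mul_le_mul_of_nonneg_right h (by positivity)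

theorem GEI_dens (hMI : PPS.MI_stmt) (k : ℕ) [NeZero k] (f : Polynomial ℂ) (b g : ZMod k → ℂ)
    (hdeg : 1 ≤ f.natDegree) (j : ℕ) :
    (∀ z, 0 ≤ PPS.dens f b g ((fun y => f.eval y)^[j]) z) ∧
    Measurable (PPS.dens f b g ((fun y => f.eval y)^[j])) := by
  obtain ⟨-, -, m3, m4, m5, -⟩ := hMI k f b g hdeg
  have hd : Differentiable ℂ ((fun y => f.eval y)^[j]) := f.differentiable.iterate j
  refine ⟨fun z => ?_, ?_⟩
  · unfold PPS.dens
    have := m5 (((fun y => f.eval y)^[j]) z)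
    positivity
  · have h1 : Measurable ((fun y => f.eval y)^[j]) := hd.continuous.measurable
    have h2 : Measurable (fun w => PPS.Df f b g (((fun y => f.eval y)^[j]) w)) := m4.comp h1
    have h3 : Measurable (fun w => ‖PPS.er f b g (((fun y => f.eval y)^[j]) w)‖) := (m3.comp h1).norm
    have h4 : Measurable (fun w => ‖deriv ((fun y => f.eval y)^[j]) w‖ ^ 2) :=
      (measurable_deriv _).norm.pow_const 2
    exact (h2.add (h3.const_mul 2)).mul h4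

theorem GEI_one (hGEP : GEP_stmt) (hMA : PPS.MA_stmt) (hMI : PPS.MI_stmt) (hBA1 : BA1_stmt)
    (hBA2 : BA2_stmt) (hBA4 : BA4_stmt) (n : ℕ) (ra : ℝ) (Cf : ℝ → ℝ)
    (D : Dat) (hG : D.Good n ra Cf) (ρ : ℝ) (Ω : Set ℂ) (M : ℕ) (hρ : 0 < ρ) (hΩ : IsOpen Ω)
    (hΩρ : Ω ⊆ ball 0 ρ) (K : Set ℂ) (hK : IsCompact K) (hKΩ : K ⊆ Ω)
    (c1 : ∀ x ∈ K, deriv (D.F D.k) x ≠ 0) (c2 : ∀ x ∈ K, ∀ l, D.F D.k x ≠ D.p l)
    (c3 : ∀ x ∈ K, D.T D.k x ≠ 0) (c4 : ∀ j ≤ D.k, InjOn (D.F j) (ball 0 ρ))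
    (c5 : ‖D.sg‖ * (ρ + 1) ≤ 1) (c6 : ∀ x ∈ ball (0 : ℂ) ρ, ‖D.F D.k x - x‖ ≤ 1)
    (c7 : ∀ (z : ℂ) (J : Finset ℕ), (∀ j ∈ J, 1 ≤ j ∧ j ≤ D.k) →
      (∀ j ∈ J, ∃ x ∈ Ω, D.F j x = z) → J.card ≤ M) :
    ∫ x in K, D.en x ≤ (2 * Real.pi + 3 * |Cf (ra + 3)|) * M := by
  obtain ⟨hsg, hlam, hxx, hzx, -, -, -, -, hder, hzF, -⟩ := hBA1 n ra Cf D hG
  obtain ⟨-, hrho1, hrhol, -⟩ := hBA4 n ra Cf D hG
  have hdeg : 1 ≤ D.f.natDegree := by
    rw [hG.hdeg]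
    exact le_trans (by norm_num) hG.hn
  have hlam0 : 0 < ‖D.lam‖ := norm_pos_iff.2 hlam
  have hsg0 : 0 < ‖D.sg‖ := norm_pos_iff.2 hsg
  set R : ℝ := ra + 3 with hR
  have hraR : ra < R := by linarith
  have hR0 : 0 < R := by linarith [hG.ra0]
  -- zz
  have hzzd : ∀ x, HasDerivAt D.zz D.sg x := by
    intro x
    have h := ((hasDerivAt_id x).const_mul D.sg).const_add (D.b 0)
    rw [mul_one] at h
    exact h
  have hzzdiff : Differentiable ℂ D.zz := fun x => (hzzd x).differentiableAt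
  have hzzinj : Function.Injective D.zz := by
    intro x y h
    rw [← hxx x, ← hxx y, h]
  have hzzopen : IsOpen (D.zz '' Ω) := by
    have h1 : D.zz '' Ω = D.xx ⁻¹' Ω := by
      ext z
      constructor
      · rintro ⟨x, hx, rfl⟩
        rw [mem_preimage, hxx]
        exact hx
      · intro hz
        exact ⟨D.xx z, hz, hzx z⟩
    rw [h1]
    refine hΩ.preimage ?_
    unfold Dat.xx
    fun_prop
  have hnorm : ∀ x : ℂ, ‖x‖ ≤ ρ + 1 → ‖D.zz x‖ < R := by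
    intro x hx
    have h1 : ‖D.zz x‖ ≤ ‖D.b 0‖ + ‖D.sg‖ * ‖x‖ := by
      unfold Dat.zz
      rw [← norm_mul]
      exact norm_add_le _ _
    have h2 : ‖D.sg‖ * ‖x‖ ≤ ‖D.sg‖ * (ρ + 1) := mul_le_mul_of_nonneg_left hx hsg0.le
    linarith [hG.hra 0]
  -- the iterates map into the ball
  have hmaps : ∀ j ≤ D.k, ∀ x ∈ Ω, ‖((fun y => D.f.eval y)^[j]) (D.zz x)‖ < R := by
    intro j hj x hx
    have hxρ := hΩρ hx
    have hx1 : ‖x‖ < ρ := by simpa using hxρ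
    have h1 : ‖D.F D.k x‖ ≤ ρ + 1 := by
      have h2 := c6 x hxρ
      have h3 := norm_add_le (D.F D.k x - x) x
      rw [sub_add_cancel] at h3
      linarith
    have h2 : ‖((fun y => D.f.eval y)^[D.k]) (D.zz x)‖ < R := by
      rw [← hzF]
      exact hnorm _ h1
    have h3 : ∀ i : ℕ, ∀ y : ℂ, ‖((fun y => D.f.eval y)^[i]) y‖ < R → ‖y‖ < R := by
      intro i
      induction i with
      | zero => intro y hy; exact hy
      | succ i ih =>
        intro y hy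
        rw [Function.iterate_succ_apply] at hy
        exact hG.inv R hraR y (ih _ hy)
    apply h3 (D.k - j)
    rw [← Function.iterate_add_apply, Nat.sub_add_cancel hj]
    exact h2
  -- the measure estimate
  have hMA1 := (hMA n D.k D.f D.b D.g R hG.hn hG.hdeg hG.cyc hrho1 hR0
    (fun j => lt_of_le_of_lt (hG.hra j) hraR) (hG.inv R hraR) D.k M (fun _ => D.zz '' Ω)
    (fun q => (fun y => D.f.eval y)^[D.k - q]) ?_ ?_).1
  rotate_left
  · intro q hq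
    refine ⟨hzzopen, (D.f.differentiable.iterate _).differentiableOn, ?_, ?_⟩
    · rintro z ⟨x, hx, rfl⟩ z' ⟨x', hx', rfl⟩ h
      have h1 : D.F (D.k - q) x = D.F (D.k - q) x' := by
        unfold Dat.F
        exact congrArg _ h
      rw [c4 (D.k - q) (Nat.sub_le _ _) (hΩρ hx) (hΩρ hx') h1]
    · rintro z ⟨x, hx, rfl⟩
      rw [mem_ball, dist_zero_right]
      exact hmaps (D.k - q) (Nat.sub_le _ _) x hx
  · intro z F hF
    have hinj : Set.InjOn (fun q => D.k - q) (F : Set ℕ) := by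
      intro a ha a' ha' h
      have h1 := (hF a ha).1
      have h2 := (hF a' ha').1
      simp only at h
      omega
    rw [← Finset.card_image_of_injOn hinj]
    refine c7 (D.xx z) _ ?_ ?_
    · intro j hj
      obtain ⟨q, hq, rfl⟩ := Finset.mem_image.1 hj
      have h1 := (hF q hq).1
      omega
    · intro j hj
      obtain ⟨q, hq, rfl⟩ := Finset.mem_image.1 hj
      obtain ⟨z', ⟨x, hx, rfl⟩, hz'⟩ := (hF q hq).2
      refine ⟨x, hx, ?_⟩
      unfold Dat.F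
      rw [hz']
  -- the bound of the right side
  have hnum : 2 * Real.pi * Real.log ‖PPS.rho D.f D.b‖ + 3 * ∫ z in ball (0 : ℂ) R, ‖PPS.er D.f D.b D.g z‖ ≤
      (2 * Real.pi + 3 * |Cf R|) * ‖D.lam‖ := by
    have h1 := hG.her R hraR
    have h2 : D.lam.re ≤ ‖D.lam‖ := Complex.re_le_norm _
    have h3 : Cf R * ‖D.lam‖ ≤ |Cf R| * ‖D.lam‖ := mul_le_mul_of_nonneg_right (le_abs_self _) hlam0.le
    have h4 : 2 * Real.pi * D.lam.re ≤ 2 * Real.pi * ‖D.lam‖ :=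
      mul_le_mul_of_nonneg_left h2 (by positivity)
    rw [hrhol]
    linarith
  set C : ℝ := 2 * Real.pi + 3 * |Cf R| with hC
  have hC0 : 0 ≤ C := by positivity
  -- change of variables
  set u : ℂ → ℝ := fun z => ∑ q ∈ Finset.range D.k,
    PPS.dens D.f D.b D.g ((fun y => D.f.eval y)^[D.k - q]) z with hu
  have hu1 : ∫⁻ w in Ω, ENNReal.ofReal (u (D.zz w) * ‖deriv D.zz w‖ ^ 2) ≤
      M * ENNReal.ofReal (C * ‖D.lam‖) := by
    rw [MPS.MA_cov hΩ hzzdiff.differentiableOn hzzinj.injOn u]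
    have h1 : ∫⁻ z in D.zz '' Ω, ENNReal.ofReal (u z) = ∑ q ∈ Finset.range D.k,
        ∫⁻ z in D.zz '' Ω, ENNReal.ofReal (PPS.dens D.f D.b D.g ((fun y => D.f.eval y)^[D.k - q]) z) := by
      rw [← lintegral_finsetSum']
      · refine lintegral_congr fun z => ?_
        rw [hu]
        exact ENNReal.ofReal_sum_of_nonneg fun q _ =>
          (GEI_dens hMI D.k D.f D.b D.g hdeg (D.k - q)).1 z
      · intro q _
        exact (GEI_dens hMI D.k D.f D.b D.g hdeg (D.k - q)).2.ennreal_ofReal.aemeasurable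
    rw [h1]
    refine le_trans hMA1 ?_
    gcongr
  have hfin : ∫⁻ x in K, ENNReal.ofReal (‖D.lam‖ * D.en x) ≤ ENNReal.ofReal (C * ‖D.lam‖ * M) := by
    calc ∫⁻ x in K, ENNReal.ofReal (‖D.lam‖ * D.en x)
        ≤ ∫⁻ x in K, ENNReal.ofReal (u (D.zz x) * ‖deriv D.zz x‖ ^ 2) := by
          refine setLIntegral_mono' hK.measurableSet fun x hx => ENNReal.ofReal_le_ofReal ?_
          rw [(hzzd x).deriv]
          exact GEI_point hGEP hBA1 hBA2 n ra Cf D hG x (c1 x hx) (c2 x hx) (c3 x hx)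
      _ ≤ ∫⁻ x in Ω, ENNReal.ofReal (u (D.zz x) * ‖deriv D.zz x‖ ^ 2) := lintegral_mono_set hKΩ
      _ ≤ M * ENNReal.ofReal (C * ‖D.lam‖) := hu1
      _ = ENNReal.ofReal (C * ‖D.lam‖ * M) := by
          rw [mul_comm (C * ‖D.lam‖) (M : ℝ), ENNReal.ofReal_mul (Nat.cast_nonneg M),
            ENNReal.ofReal_natCast]
  have hint := GEI_int (volume.restrict K) (fun x => ‖D.lam‖ * D.en x) (C * ‖D.lam‖ * M)
    (by positivity) hfin
  rw [integral_const_mul] at hint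
  have h1 : ‖D.lam‖ * ∫ x in K, D.en x ≤ ‖D.lam‖ * (C * M) := by
    refine le_trans hint (le_of_eq ?_)
    ring
  exact le_of_mul_le_mul_left h1 hlam0

theorem GEI (hGEP : GEP_stmt) (hGFK : GFK_stmt) (hGHP : GHP_stmt) (hGTC : GTC_stmt)
    (hMA : PPS.MA_stmt) (hMI : PPS.MI_stmt) (hBA1 : BA1_stmt) (hBA2 : BA2_stmt) (hBA4 : BA4_stmt) :
    GEI_stmt := by
  intro n ra Cf D hS hL
  refine ⟨2 * Real.pi + 3 * |Cf (ra + 3)|, by positivity, ?_⟩
  intro ρ₀ Ω M hΩ hΩρ₀ hmult K hK hKΩ hKR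
  set ρ : ℝ := max ρ₀ 1 with hρ
  have hρ0 : 0 < ρ := lt_of_lt_of_le one_pos (le_max_right _ _)
  have hΩρ : Ω ⊆ ball 0 ρ := hΩρ₀.trans (ball_subset_ball (le_max_left _ _))
  have hKP : K ⊆ (Pin D)ᶜ := fun x hx => (hKR hx).1
  -- lower bound of `Bin` on `K`
  obtain ⟨c, hc, hcK⟩ : ∃ c > (0 : ℝ), ∀ x ∈ K, c ≤ ‖Bin D x‖ := by
    rcases K.eq_empty_or_nonempty with hKe | hKn
    · exact ⟨1, one_pos, fun x hx => by rw [hKe] at hx; exact absurd hx (notMem_empty _)⟩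
    · have hcont : ContinuousOn (fun x => ‖Bin D x‖) K := (hL.Bdiff.continuousOn.mono hKP).norm
      obtain ⟨x₀, hx₀, hmin⟩ := hK.exists_isMinOn hKn hcont
      exact ⟨‖Bin D x₀‖, norm_pos_iff.2 (hKR hx₀).2, fun x hx => hmin hx⟩
  have e1 := (hGFK n ra Cf D hS hL ρ hρ0).2 (1 / 2) (by norm_num)
  have e2 := hGHP n ra Cf D hS hL K hK hKP
  have e3 := hGTC n ra Cf D hS hL K hK hKP (c / 2) (by positivity)
  have e4 := hL.inj ρ hρ0
  have e5 := hL.small (ρ + 1) (by positivity)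
  filter_upwards [e1, e2, e3, e4, e5, hmult] with m h1 h2 h3 h4 h5 h6
  refine GEI_one hGEP hMA hMI hBA1 hBA2 hBA4 n ra Cf (D m) (hS.good m) ρ Ω M hρ0 hΩ hΩρ K hK hKΩ
    ?_ ?_ ?_ h4 h5 ?_ h6
  · intro x hx h
    have h7 := (h1 x (hΩρ (hKΩ hx))).2
    rw [h, zero_sub, norm_neg, norm_one] at h7
    norm_num at h7
  · intro x hx l
    exact h2 (D m).k le_rfl x hx l
  · intro x hx h
    have h7 := h3 (D m).k le_rfl x hx
    rw [h, zero_sub, norm_neg] at h7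
    linarith [hcK x hx]
  · intro x hx
    have h7 := (h1 x hx).1
    linarith

end V3S
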