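import Pool.Agent.helper10.V3.SpecL

/-!
# Module NIX of project v3: (MP_af9036_an): continuation of the near identity statement
-/

set_option autoImplicit false

open Complex Metric Set Filter Topology MeasureTheory MPS

noncomputable section

namespace V3S

/-- a holomorphic square root of a function near `1`. -/
theorem NIX_sqrt (τ : ℂ → ℂ) (Ω : Set ℂ) (hτ : DifferentiableOn ℂ τ Ω) (η : ℝ) (hη : η ≤ 1 / 100)
    (hb : ∀ w ∈ Ω, ‖τ w - 1‖ ≤ η) : ∃ σ : ℂ → ℂ, DifferentiableOn ℂ σ Ω ∧ ∀ w ∈ Ω, σ w ^ 2 = τ w ∧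
      ‖σ w - 1‖ ≤ η := by
  have hre : ∀ w ∈ Ω, 0 < (τ w).re := by
    intro w hw
    have h1 : |(τ w - 1).re| ≤ η := le_trans (Complex.abs_re_le_norm _) (hb w hw)
    have h2 : (τ w - 1).re = (τ w).re - 1 := by simp
    rw [h2] at h1
    have := (abs_le.1 h1).1
    linarith
  refine ⟨fun w => Complex.exp (Complex.log (τ w) / 2), ?_, ?_⟩
  · intro w hw
    have hs : τ w ∈ slitPlane := Or.inl (hre w hw)
    exact (((hτ w hw).clog hs).div_const 2).cexp
  · intro w hw
    have hne : τ w ≠ 0 := by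
      intro h0
      have := hre w hw
      rw [h0] at this
      simp at this
    have hsq : Complex.exp (Complex.log (τ w) / 2) ^ 2 = τ w := by
      rw [← Complex.exp_nat_mul]
      have : ((2 : ℕ) : ℂ) * (Complex.log (τ w) / 2) = Complex.log (τ w) := by
        push_cast
        ring
      rw [this, Complex.exp_log hne]
    refine ⟨hsq, ?_⟩
    have hsre : 0 ≤ (Complex.exp (Complex.log (τ w) / 2)).re := by
      rw [Complex.exp_re]
      apply mul_nonneg (Real.exp_pos _).le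
      have him : (Complex.log (τ w) / 2).im = Complex.arg (τ w) / 2 := by
        have h := Complex.div_ofNat_im (Complex.log (τ w)) 2
        rw [h, Complex.log_im]
      rw [him]
      have hpi := Real.pi_pos
      have ha := abs_le.1 (Complex.abs_arg_le_pi (τ w))
      apply Real.cos_nonneg_of_neg_pi_div_two_le_of_le <;> linarith [ha.1, ha.2]
    set s := Complex.exp (Complex.log (τ w) / 2) with hs
    have h1 : ‖s - 1‖ * ‖s + 1‖ = ‖τ w - 1‖ := by
      rw [← norm_mul, ← hsq]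
      congr 1
      ring
    have h2 : 1 ≤ ‖s + 1‖ := by
      have h3 : (s + 1).re ≤ ‖s + 1‖ := Complex.re_le_norm _
      have h4 : (s + 1).re = s.re + 1 := by simp
      linarith
    have h3 : ‖s - 1‖ ≤ ‖s - 1‖ * ‖s + 1‖ := le_mul_of_one_le_right (norm_nonneg _) h2
    linarith [hb w hw]

/-- a function uniformly near the identity has derivative near `1`. -/
theorem NIX_der (Φ : ℂ → ℂ) (r η : ℝ) (hr : 0 < r) (hΦ : DifferentiableOn ℂ Φ (ball 0 r))
    (hη : η ≤ r / 100) (hb : ∀ w ∈ ball (0 : ℂ) r, ‖Φ w - w‖ ≤ η) :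
    ∀ w ∈ ball (0 : ℂ) (r / 2), ‖deriv Φ w - 1‖ ≤ 1 / 2 := by
  intro w hw
  have hw' : ‖w‖ < r / 2 := by simpa using hw
  have hsub : closedBall w (r / 4) ⊆ ball 0 r := by
    intro z hz
    have h1 : ‖z - w‖ ≤ r / 4 := by simpa [dist_eq_norm] using hz
    have h2 : ‖z‖ ≤ ‖z - w‖ + ‖w‖ := by
      have := norm_add_le (z - w) w
      simpa using this
    simp only [mem_ball, dist_zero_right]
    linarith
  have hwr : w ∈ ball (0 : ℂ) r := hsub (mem_closedBall_self (by positivity))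
  have hd : DifferentiableOn ℂ (fun z => Φ z - z) (ball 0 r) := hΦ.sub differentiableOn_id
  have hdc : DiffContOnCl ℂ (fun z => Φ z - z) (ball w (r / 4)) := by
    apply DifferentiableOn.diffContOnCl
    rw [closure_ball w (by positivity)]
    exact hd.mono hsub
  have h := norm_deriv_le_of_forall_mem_sphere_norm_le (by positivity : 0 < r / 4) hdc
    (fun z hz => hb z (hsub (sphere_subset_closedBall hz)))
  have hda : DifferentiableAt ℂ Φ w := hΦ.differentiableAt (isOpen_ball.mem_nhds hwr)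
  have he : deriv (fun z => Φ z - z) w = deriv Φ w - 1 := by
    rw [deriv_fun_sub hda differentiableAt_fun_id]
    simp
  rw [he] at h
  refine le_trans h ?_
  rw [div_le_iff₀ (by positivity)]
  linarith

theorem NIX (hLEA : PPS.LEA_stmt) (hLV : PPS.LV_stmt) : NIX_stmt := by
  intro k _ f b g χ G Φ₁ h h' r η hdeg hcyc h0 h1 h'0 h'h hr hrh' hη0 hηh hηr hη1 hnat hlev hsum hΦ₁ hval
  obtain ⟨-, -, hτd, -, -⟩ := hLEA k f b g G (ball 0 h') k hcyc isOpen_ball hlev
  obtain ⟨-, -, -, hτ1, -⟩ := hLV k f b g G (ball 0 h') k hdeg hcyc isOpen_ball hlev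
  have hτb : ∀ w ∈ ball (0 : ℂ) h', ‖tau b g G k w - 1‖ ≤ η := fun w hw =>
    le_trans (hτ1 k le_rfl w hw) (hsum w hw)
  obtain ⟨σ, hσd, hσ⟩ := NIX_sqrt (tau b g G k) (ball 0 h') (hτd k le_rfl) η hη1 hτb
  obtain ⟨Φ, hΦ0, hΦ⟩ := (hσd.isExactOn_ball).with_val_at 0 (Φ₁ 0)
  have hsubr : ball (0 : ℂ) r ⊆ ball 0 h' := ball_subset_ball hrh'
  have hΦd : DifferentiableOn ℂ Φ (ball 0 h') := fun w hw =>
    (hΦ w hw).differentiableAt.differentiableWithinAt
  -- the derivative of Φ₁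
  have hder1 := NIX_der Φ₁ r η hr hΦ₁ hηr (fun w hw => (hval w hw).2.1)
  have hsub2 : ball (0 : ℂ) (r / 2) ⊆ ball 0 r := ball_subset_ball (by linarith)
  have hder2 : ∀ w ∈ ball (0 : ℂ) (r / 2), deriv Φ₁ w = σ w := by
    intro w hw
    have hwr := hsub2 hw
    have hwh := hsubr hwr
    have hΦa : DifferentiableAt ℂ Φ₁ w := hΦ₁.differentiableAt (isOpen_ball.mem_nhds hwr)
    have hχa : DifferentiableAt ℂ χ (Φ₁ w) :=
      hnat.diff.differentiableAt (isOpen_ball.mem_nhds (hval w hwr).1)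
    have hev : G k =ᶠ[𝓝 w] fun z => χ (Φ₁ z) := by
      filter_upwards [isOpen_ball.mem_nhds hwr] with z hz
      exact ((hval z hz).2.2).symm
    have hGd : deriv (G k) w = deriv χ (Φ₁ w) * deriv Φ₁ w := by
      rw [hev.deriv_eq]
      exact (hχa.hasDerivAt.comp w hΦa.hasDerivAt).deriv
    have heq := hnat.eq (Φ₁ w) (hval w hwr).1
    rw [(hval w hwr).2.2] at heq
    have hτeq : tau b g G k w = deriv Φ₁ w ^ 2 := by
      unfold tau
      rw [hGd]
      calc (deriv χ (Φ₁ w) * deriv Φ₁ w) ^ 2 * BB b g (G k w)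
          = (deriv χ (Φ₁ w) ^ 2 * BB b g (G k w)) * deriv Φ₁ w ^ 2 := by ring
        _ = deriv Φ₁ w ^ 2 := by rw [heq, one_mul]
    have hsq : deriv Φ₁ w ^ 2 = σ w ^ 2 := by rw [← hτeq, (hσ w hwh).1]
    rcases sq_eq_sq_iff_eq_or_eq_neg.1 hsq with h3 | h3
    · exact h3
    · exfalso
      have h4 := hder1 w hw
      have h5 := (hσ w hwh).2
      have h6 : ‖(2 : ℂ)‖ ≤ ‖deriv Φ₁ w - 1‖ + ‖σ w - 1‖ := by
        have h7 : (2 : ℂ) = -((deriv Φ₁ w - 1) + (σ w - 1)) := by
          rw [h3]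
          ring
        rw [h7, norm_neg]
        exact norm_add_le _ _
      have h8 : ‖(2 : ℂ)‖ = 2 := by norm_num
      rw [h8] at h6
      linarith
  have heqn : EqOn Φ₁ Φ (ball 0 (r / 2)) := by
    refine isOpen_ball.eqOn_of_deriv_eq (convex_ball _ _).isPreconnected (hΦ₁.mono hsub2)
      (hΦd.mono (hsub2.trans hsubr)) ?_ (mem_ball_self (by positivity)) hΦ0.symm
    intro w hw
    rw [hder2 w hw, (hΦ w (hsubr (hsub2 hw))).deriv]
  -- the bound
  have hbound : ∀ w ∈ ball (0 : ℂ) h', ‖Φ w - w‖ ≤ 2 * η := by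
    intro w hw
    have hw' : ‖w‖ < h' := by simpa using hw
    have hmv : ‖(Φ w - w) - (Φ 0 - 0)‖ ≤ η * ‖w - 0‖ := by
      have := (convex_ball (0 : ℂ) h').norm_image_sub_le_of_norm_hasDerivWithin_le
        (f := fun z => Φ z - z) (f' := fun z => σ z - 1) (C := η) (x := 0) (y := w)
        (fun z hz => ((hΦ z hz).sub (hasDerivAt_id z)).hasDerivWithinAt)
        (fun z hz => (hσ z hz).2) (mem_ball_self h'0) hw
      simpa using this
    have h2 : ‖Φ 0 - 0‖ ≤ η := by
      rw [hΦ0]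
      exact (hval 0 (mem_ball_self hr)).2.1
    have h3 : ‖Φ w - w‖ ≤ ‖(Φ w - w) - (Φ 0 - 0)‖ + ‖Φ 0 - 0‖ := by
      have := norm_add_le ((Φ w - w) - (Φ 0 - 0)) (Φ 0 - 0)
      simpa using this
    have h4 : η * ‖w - 0‖ ≤ η * 1 := by
      apply mul_le_mul_of_nonneg_left _ hη0
      rw [sub_zero]
      linarith
    linarith
  have hmem : ∀ w ∈ ball (0 : ℂ) h', Φ w ∈ ball (0 : ℂ) (16 * h) := by
    intro w hw
    have hw' : ‖w‖ < h' := by simpa using hw
    have h3 : ‖Φ w‖ ≤ ‖Φ w - w‖ + ‖w‖ := by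
      have := norm_add_le (Φ w - w) w
      simpa using this
    simp only [mem_ball, dist_zero_right]
    linarith [hbound w hw]
  refine ⟨Φ, hΦd, fun w hw => ⟨hmem w hw, hbound w hw, ?_⟩⟩
  have hcomp : DifferentiableOn ℂ (fun z => χ (Φ z)) (ball 0 h') :=
    hnat.diff.comp hΦd hmem
  have ha1 : AnalyticOnNhd ℂ (fun z => χ (Φ z)) (ball 0 h') := hcomp.analyticOnNhd isOpen_ball
  have ha2 : AnalyticOnNhd ℂ (G k) (ball 0 h') := (hlev.diff k le_rfl).analyticOnNhd isOpen_ball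
  refine ha1.eqOn_of_preconnected_of_eventuallyEq ha2 (convex_ball _ _).isPreconnected
    (mem_ball_self h'0) ?_ hw
  filter_upwards [isOpen_ball.mem_nhds (mem_ball_self (by positivity : 0 < r / 2))] with z hz
  rw [← heqn hz]
  exact (hval z (hsub2 hz)).2.2

end V3S
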