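import Pool.Agent.helper54.V3.SpecG
import Pool.Agent.helper58.V3.NIX

/-!
# Module GFM of project v3: (MP_af9036_an): `B = 1/x²` contradicts the maximality of `ψ 0`
-/

set_option autoImplicit false

open Complex Metric Set Filter Topology MeasureTheory MPS V3

noncomputable section

namespace V3S

/-- pure analysis: the function `u = x exp K₀` with `u' = exp K₀ · σ`. -/
theorem GFM_u (f : ℂ → ℂ) (hf : DifferentiableOn ℂ f (ball 0 8)) (h0 : f 0 = 1)
    (hb : ∀ x ∈ ball (0 : ℂ) 8, ‖f x - 1‖ ≤ 1 / 100) :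
    ∃ u u' : ℂ → ℂ, u 0 = 0 ∧ u' 0 = 1 ∧ (∀ x ∈ ball (0 : ℂ) 8, HasDerivAt u (u' x) x ∧
      ‖u' x - 1‖ ≤ 1 / 2 ∧ x ^ 2 * u' x ^ 2 = u x ^ 2 * f x) := by
  obtain ⟨σ, hσd, hσ⟩ := NIX_sqrt f (ball 0 8) hf (1 / 100) le_rfl hb
  have h08 : (0 : ℂ) ∈ ball (0 : ℂ) 8 := mem_ball_self (by norm_num)
  have hσ0 : σ 0 = 1 := by
    have h1 := (hσ 0 h08).1
    rw [h0] at h1
    rcases sq_eq_one_iff.1 h1 with h2 | h2
    · exact h2
    · exfalso
      have h3 := (hσ 0 h08).2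
      rw [h2] at h3
      norm_num at h3
  have hHd : DifferentiableOn ℂ (dslope σ 0) (ball 0 8) :=
    (Complex.differentiableOn_dslope (isOpen_ball.mem_nhds h08)).2 hσd
  have hHeq : ∀ x : ℂ, x * dslope σ 0 x = σ x - 1 := by
    intro x
    have := sub_smul_dslope σ 0 x
    rw [sub_zero, smul_eq_mul, hσ0] at this
    exact this
  have hHb1 : ∀ x ∈ ball (0 : ℂ) 8, 1 ≤ ‖x‖ → ‖dslope σ 0 x‖ ≤ 1 / 100 := by
    intro x hx hx1
    have h1 : ‖x‖ * ‖dslope σ 0 x‖ ≤ 1 / 100 := by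
      rw [← norm_mul, hHeq]
      exact (hσ x hx).2
    have h2 : ‖dslope σ 0 x‖ ≤ ‖x‖ * ‖dslope σ 0 x‖ := le_mul_of_one_le_left (norm_nonneg _) hx1
    linarith
  have hHb : ∀ x ∈ ball (0 : ℂ) 8, ‖dslope σ 0 x‖ ≤ 1 / 100 := by
    intro x hx
    rcases le_or_gt 1 ‖x‖ with h1 | h1
    · exact hHb1 x hx h1
    · have hsub : closedBall (0 : ℂ) 1 ⊆ ball 0 8 := closedBall_subset_ball (by norm_num)
      have hdc : DiffContOnCl ℂ (dslope σ 0) (ball (0 : ℂ) 1) := by
        apply DifferentiableOn.diffContOnCl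
        rw [closure_ball (0 : ℂ) (by norm_num)]
        exact hHd.mono hsub
      refine Complex.norm_le_of_forall_mem_frontier_norm_le isBounded_ball hdc ?_ ?_
      · intro z hz
        rw [frontier_ball (0 : ℂ) (by norm_num)] at hz
        refine hHb1 z (hsub (sphere_subset_closedBall hz)) ?_
        rw [mem_sphere_zero_iff_norm.1 hz]
      · apply subset_closure
        simpa using h1
  obtain ⟨K, hK0, hK⟩ := (hHd.isExactOn_ball).with_val_at 0 0
  have hKb : ∀ x ∈ ball (0 : ℂ) 8, ‖K x‖ ≤ 8 / 100 := by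
    intro x hx
    have h1 := (convex_ball (0 : ℂ) 8).norm_image_sub_le_of_norm_hasDerivWithin_le
      (f := K) (f' := dslope σ 0) (C := 1 / 100) (x := 0) (y := x)
      (fun z hz => (hK z hz).hasDerivWithinAt) hHb h08 hx
    rw [hK0, sub_zero, sub_zero] at h1
    have h2 : ‖x‖ < 8 := by simpa using hx
    linarith
  refine ⟨fun x => x * exp (K x), fun x => exp (K x) * σ x, by simp, by simp [hK0, hσ0], ?_⟩
  intro x hx
  refine ⟨?_, ?_, ?_⟩
  · have h1 := (hasDerivAt_id x).mul (hK x hx).cexp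
    have h2 : 1 * exp (K x) + id x * (exp (K x) * dslope σ 0 x) = exp (K x) * σ x := by
      have h3 := hHeq x
      have h4 : id x * (exp (K x) * dslope σ 0 x) = exp (K x) * (x * dslope σ 0 x) := by
        simp only [id]
        ring
      rw [h4, h3]
      ring
    rw [h2] at h1
    exact h1
  · have h1 : ‖exp (K x) - 1‖ ≤ 2 * ‖K x‖ :=
      Complex.norm_exp_sub_one_le (by linarith [hKb x hx])
    have h2 : exp (K x) * σ x - 1 = (exp (K x) - 1) * σ x + (σ x - 1) := by ring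
    have h3 : ‖σ x‖ ≤ 1 + 1 / 100 := by
      have := norm_add_le (1 : ℂ) (σ x - 1)
      have h4 : (1 : ℂ) + (σ x - 1) = σ x := by ring
      rw [h4, norm_one] at this
      linarith [(hσ x hx).2]
    rw [h2]
    have h5 : ‖(exp (K x) - 1) * σ x‖ ≤ (16 / 100) * (1 + 1 / 100) := by
      rw [norm_mul]
      exact mul_le_mul (by linarith [hKb x hx]) h3 (norm_nonneg _) (by norm_num)
    have h6 := norm_add_le ((exp (K x) - 1) * σ x) (σ x - 1)
    linarith [(hσ x hx).2]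
  · simp only
    rw [← (hσ x hx).1]
    ring

/-- pure analysis: the natural map of `f/x²` at `0`, where `f` is near `1` on `ball 0 8`. -/
theorem GFM_core (f : ℂ → ℂ) (hf : DifferentiableOn ℂ f (ball 0 8)) (h0 : f 0 = 1)
    (hb : ∀ x ∈ ball (0 : ℂ) 8, ‖f x - 1‖ ≤ 1 / 100) :
    ∃ g : ℂ → ℂ, DifferentiableOn ℂ g (ball 0 (3 / 2)) ∧ g 0 = 0 ∧ deriv g 0 = 1 ∧
      ∀ z ∈ ball (0 : ℂ) (3 / 2), ‖g z‖ ≤ 6 ∧ (z ≠ 0 → g z ≠ 0) ∧
        z ^ 2 * deriv g z ^ 2 * f (g z) = g z ^ 2 := by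
  obtain ⟨u, u', hu0, hu'0, hu⟩ := GFM_u f hf h0 hb
  have h08 : (0 : ℂ) ∈ ball (0 : ℂ) 8 := mem_ball_self (by norm_num)
  have hsub6 : closedBall (0 : ℂ) 6 ⊆ ball 0 8 := closedBall_subset_ball (by norm_num)
  have hlow : ∀ x ∈ ball (0 : ℂ) 8, ∀ y ∈ ball (0 : ℂ) 8, 1 / 2 * ‖x - y‖ ≤ ‖u x - u y‖ := by
    intro x hx y hy
    have h1 := (convex_ball (0 : ℂ) 8).norm_image_sub_le_of_norm_hasDerivWithin_le
      (f := fun z => u z - z) (f' := fun z => u' z - 1) (C := 1 / 2) (x := y) (y := x)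
      (fun z hz => ((hu z hz).1.sub (hasDerivAt_id z)).hasDerivWithinAt)
      (fun z hz => (hu z hz).2.1) hy hx
    have h2 : x - y = (u x - u y) - ((u x - x) - (u y - y)) := by ring
    have h3 : ‖x - y‖ ≤ ‖u x - u y‖ + ‖(u x - x) - (u y - y)‖ := by
      conv_lhs => rw [h2]
      exact norm_sub_le _ _
    linarith
  have hud : DifferentiableOn ℂ u (ball 0 8) := fun x hx =>
    (hu x hx).1.differentiableAt.differentiableWithinAt
  have hu'ne : ∀ x ∈ ball (0 : ℂ) 8, u' x ≠ 0 := by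
    intro x hx h
    have := (hu x hx).2.1
    rw [h] at this
    norm_num at this
  have hsurj : ∀ z ∈ ball (0 : ℂ) (3 / 2), ∃ x ∈ closedBall (0 : ℂ) 6, u x = z := by
    have hdc : DiffContOnCl ℂ u (ball (0 : ℂ) 6) := by
      apply DifferentiableOn.diffContOnCl
      rw [closure_ball (0 : ℂ) (by norm_num)]
      exact hud.mono hsub6
    have h1 : ∀ z ∈ sphere (0 : ℂ) 6, (3 : ℝ) ≤ ‖u z - u 0‖ := by
      intro z hz
      have h2 := hlow z (hsub6 (sphere_subset_closedBall hz)) 0 h08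
      rw [sub_zero, mem_sphere_zero_iff_norm.1 hz] at h2
      linarith
    have h2 : ∃ᶠ z in 𝓝 (0 : ℂ), u z ≠ u 0 := by
      have h3 : ∀ᶠ z in 𝓝[≠] (0 : ℂ), u z ≠ u 0 := by
        have h4 : ball (0 : ℂ) 8 ∈ 𝓝[≠] (0 : ℂ) := mem_nhdsWithin_of_mem_nhds (isOpen_ball.mem_nhds h08)
        filter_upwards [h4, self_mem_nhdsWithin] with z hz hz0 heq
        have h5 := hlow z hz 0 h08
        rw [heq, sub_self, norm_zero, sub_zero] at h5
        have h6 : 0 < ‖z‖ := norm_pos_iff.2 hz0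
        linarith
      exact h3.frequently.filter_mono nhdsWithin_le_nhds
    have h3 := hdc.ball_subset_image_closedBall (by norm_num) h1 h2
    rw [hu0] at h3
    intro z hz
    obtain ⟨x, hx, hxz⟩ := h3 hz
    exact ⟨x, hx, hxz⟩
  choose! g hg using hsurj
  have hg8 : ∀ z ∈ ball (0 : ℂ) (3 / 2), g z ∈ ball (0 : ℂ) 8 := fun z hz => hsub6 (hg z hz).1
  have h032 : (0 : ℂ) ∈ ball (0 : ℂ) (3 / 2) := mem_ball_self (by norm_num)
  have hg0 : g 0 = 0 := by
    have h1 := hlow (g 0) (hg8 0 h032) 0 h08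
    rw [(hg 0 h032).2, hu0, sub_zero, sub_zero, norm_zero] at h1
    have h2 : ‖g 0‖ = 0 := le_antisymm (by linarith) (norm_nonneg _)
    exact norm_eq_zero.1 h2
  have hcont : ∀ z ∈ ball (0 : ℂ) (3 / 2), ContinuousAt g z := by
    intro z hz
    rw [Metric.continuousAt_iff]
    intro ε hε
    obtain ⟨δ, hδ, hball⟩ := Metric.isOpen_iff.1 isOpen_ball z hz
    refine ⟨min δ (ε / 2), lt_min hδ (by positivity), fun {y} hy => ?_⟩
    have hy1 : y ∈ ball (0 : ℂ) (3 / 2) := hball (lt_of_lt_of_le hy (min_le_left _ _))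
    have h1 := hlow (g y) (hg8 y hy1) (g z) (hg8 z hz)
    rw [(hg y hy1).2, (hg z hz).2] at h1
    have h2 : dist y z < ε / 2 := lt_of_lt_of_le hy (min_le_right _ _)
    rw [dist_eq_norm] at h2 ⊢
    linarith
  have hgd : ∀ z ∈ ball (0 : ℂ) (3 / 2), HasDerivAt g (u' (g z))⁻¹ z := by
    intro z hz
    refine HasDerivAt.of_local_left_inverse (hcont z hz) (hu (g z) (hg8 z hz)).1
      (hu'ne _ (hg8 z hz)) ?_
    filter_upwards [isOpen_ball.mem_nhds hz] with y hy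
    exact (hg y hy).2
  refine ⟨g, fun z hz => (hgd z hz).differentiableAt.differentiableWithinAt, hg0, ?_, ?_⟩
  · rw [(hgd 0 h032).deriv, hg0, hu'0, inv_one]
  · intro z hz
    refine ⟨by simpa using (hg z hz).1, ?_, ?_⟩
    · intro hz0 h
      apply hz0
      rw [← (hg z hz).2, h, hu0]
    · rw [(hgd z hz).deriv]
      have h1 := (hu (g z) (hg8 z hz)).2.2
      rw [(hg z hz).2] at h1
      have h2 := hu'ne _ (hg8 z hz)
      field_simp
      rw [← h1]
      ring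

theorem GFM_F (ι : Type) [Fintype ι] [DecidableEq ι] (i₀ : ι) (p c : ι → ℂ) (B : ℂ → ℂ) (hp0 : p i₀ = 0)
    (hp : ∀ i, i ≠ i₀ → 9 < ‖p i‖)
    (hB : ∀ x, B x = ∑ i, (1 / (x - p i) ^ 2 + c i / (x - p i)))
    (hs : ∀ x ∈ sphere (0 : ℂ) 8, ‖B x - 1 / x ^ 2‖ ≤ 1 / 6400) :
    ∃ F : ℂ → ℂ, DifferentiableOn ℂ F (ball 0 8) ∧ F 0 = 1 ∧ (∀ x ∈ ball (0 : ℂ) 8, ‖F x - 1‖ ≤ 1 / 100) ∧
      ∀ x, x ≠ 0 → F x = x ^ 2 * B x := by
  set F : ℂ → ℂ := fun x => 1 + c i₀ * x + x ^ 2 * ∑ i ∈ Finset.univ.erase i₀,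
    (1 / (x - p i) ^ 2 + c i / (x - p i)) with hF
  have hFB : ∀ x, x ≠ 0 → F x = x ^ 2 * B x := by
    intro x hx
    rw [hB, ← Finset.add_sum_erase Finset.univ _ (Finset.mem_univ i₀), hp0, hF]
    simp only
    rw [mul_add, sub_zero]
    congr 1
    field_simp
  have hFd : DifferentiableOn ℂ F (ball 0 9) := by
    refine ((differentiableOn_const _).add ((differentiableOn_const _).mul differentiableOn_id)).add
      ((differentiableOn_id.pow 2).mul (DifferentiableOn.fun_sum fun i hi => ?_))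
    have hne : ∀ x ∈ ball (0 : ℂ) 9, x - p i ≠ 0 := by
      intro x hx h
      have h1 : x = p i := sub_eq_zero.1 h
      have h2 : ‖x‖ < 9 := by simpa using hx
      rw [h1] at h2
      linarith [hp i (Finset.ne_of_mem_erase hi)]
    have h1 : DifferentiableOn ℂ (fun x : ℂ => x - p i) (ball 0 9) :=
      differentiableOn_id.sub (differentiableOn_const _)
    exact ((differentiableOn_const _).div (h1.pow 2) fun x hx => pow_ne_zero 2 (hne x hx)).add
      ((differentiableOn_const _).div h1 hne)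
  refine ⟨F, hFd.mono (ball_subset_ball (by norm_num)), by simp [hF], ?_, hFB⟩
  intro x hx
  have hdc : DiffContOnCl ℂ (fun x => F x - 1) (ball (0 : ℂ) 8) := by
    apply DifferentiableOn.diffContOnCl
    rw [closure_ball (0 : ℂ) (by norm_num)]
    exact (hFd.mono (closedBall_subset_ball (by norm_num))).sub (differentiableOn_const _)
  refine Complex.norm_le_of_forall_mem_frontier_norm_le isBounded_ball hdc ?_ (subset_closure hx)
  intro z hz
  rw [frontier_ball (0 : ℂ) (by norm_num)] at hz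
  have hz8 : ‖z‖ = 8 := mem_sphere_zero_iff_norm.1 hz
  have hz0 : z ≠ 0 := by
    intro h
    rw [h, norm_zero] at hz8
    norm_num at hz8
  have h1 : F z - 1 = z ^ 2 * (B z - 1 / z ^ 2) := by
    rw [hFB z hz0, mul_sub]
    congr 1
    field_simp
  rw [h1, norm_mul, norm_pow, hz8]
  have h2 := hs z hz
  linarith

theorem GFM (hBA1 : BA1_stmt) (hBA2 : BA2_stmt) (hGLB : GLB_stmt) : GFM_stmt := by
  intro n ra Cf D hS hL hP hB
  obtain ⟨c₀, hc₀, hsep⟩ := hL.sep
  obtain ⟨-, -, -, -, -, -, hfar⟩ := hGLB n ra Cf D hS hL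
  have hKc : IsCompact {x : ℂ | c₀ ≤ ‖x‖ ∧ ‖x‖ ≤ 9} := by
    have h1 : {x : ℂ | c₀ ≤ ‖x‖ ∧ ‖x‖ ≤ 9} = closedBall 0 9 ∩ {x : ℂ | c₀ ≤ ‖x‖} := by
      ext x
      simp only [mem_setOf_eq, mem_inter_iff, mem_closedBall, dist_zero_right]
      tauto
    rw [h1]
    exact (isCompact_closedBall _ _).inter_right (isClosed_le continuous_const continuous_norm)
  have hKs : {x : ℂ | c₀ ≤ ‖x‖ ∧ ‖x‖ ≤ 9} ⊆ (Pin D)ᶜ := by
    intro x hx hx0
    rw [hP, mem_singleton_iff] at hx0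
    rw [hx0] at hx
    have := hx.1
    rw [norm_zero] at this
    linarith
  obtain ⟨δ, hδ, hev1⟩ := hfar _ hKc hKs
  have hSs : sphere (0 : ℂ) 8 ⊆ (Pin D)ᶜ := by
    intro x hx hx0
    rw [hP, mem_singleton_iff] at hx0
    rw [hx0] at hx
    simp at hx
  have hev2 := (Metric.tendstoUniformlyOn_iff.1 (hL.Bconv _ (isCompact_sphere (0 : ℂ) 8) hSs))
    (1 / 6400) (by norm_num)
  obtain ⟨m, h1, h2⟩ := (hev1.and hev2).exists
  have hG := hS.good m
  obtain ⟨hsg, -, hxx, -, -, -, -, -, -, -, -, hp0, -, -, -, -⟩ := hBA1 n ra Cf (D m) hG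
  obtain ⟨hBf, -, -, hzz, -⟩ := hBA2 n ra Cf (D m) hG
  have hp9 : ∀ l, l ≠ 0 → 9 < ‖(D m).p l‖ := by
    intro l hl
    by_contra hcon
    have h3 := hsep m l 0 hl
    rw [hp0, sub_zero] at h3
    have h4 := h1 ((D m).p l) ⟨h3, not_lt.1 hcon⟩ l
    rw [sub_self, norm_zero] at h4
    linarith
  obtain ⟨F, hFd, hF0, hFb, hFB⟩ := GFM_F (ZMod (D m).k) 0 (D m).p (fun l => (D m).sg * (D m).g l)
    (D m).B hp0 hp9 hBf (by
      intro x hx
      have hx0 : x ≠ 0 := by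
        intro h
        rw [h] at hx
        simp at hx
      have h3 := h2 x hx
      rw [hB x hx0, dist_comm, dist_eq_norm] at h3
      exact h3.le)
  obtain ⟨g, hgd, hg0, hg1, hg⟩ := GFM_core F hFd hF0 hFb
  have h032 : (0 : ℂ) ∈ ball (0 : ℂ) (3 / 2) := mem_ball_self (by norm_num)
  have hga : ∀ z ∈ ball (0 : ℂ) (3 / 2), HasDerivAt (fun z => (D m).zz (g z)) ((D m).sg * deriv g z) z := by
    intro z hz
    have h3 := (hgd.differentiableAt (isOpen_ball.mem_nhds hz)).hasDerivAt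
    exact (h3.const_mul ((D m).sg)).const_add ((D m).b 0)
  have hPN : PN (D m).b (D m).g 0 (fun z => (D m).zz (g z)) (3 / 2) := by
    refine ⟨by norm_num, fun z hz => (hga z hz).differentiableAt.differentiableWithinAt, ?_, ?_, ?_, ?_⟩
    · simp only [hg0]
      unfold Dat.zz
      ring
    · rw [(hga 0 h032).deriv, hg1, mul_one]
      exact hsg
    · intro z hz hz0 j h
      have h3 := (hzz (g z) j).1 h
      obtain ⟨h4, h5, -⟩ := hg z hz
      rcases eq_or_ne j 0 with hj | hj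
      · rw [hj, hp0] at h3
        exact h5 hz0 h3
      · have h6 := hp9 j hj
        rw [← h3] at h6
        linarith
    · intro z hz hz0
      obtain ⟨h4, h5, h6⟩ := hg z hz
      have hgz := h5 hz0
      rw [(hga z hz).deriv]
      have h7 := hFB (g z) hgz
      rw [h7] at h6
      unfold Dat.B at h6
      have h8 : g z ^ 2 * (z ^ 2 * ((D m).sg * deriv g z) ^ 2 * BB (D m).b (D m).g ((D m).zz (g z))) =
          g z ^ 2 * 1 := by
        refine Eq.trans ?_ (h6.trans (mul_one _).symm)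
        ring
      exact mul_left_cancel₀ (pow_ne_zero 2 hgz) h8
  have hmx := (hG.mx 0).mx (3 / 2) (by norm_num) _ hPN
  apply hmx
  rw [(hga 0 h032).deriv, hg1, mul_one]
  rfl

end V3S
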