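import Pool.Agent.helper54.V3.SpecE

/-!
# Module PQ0 of project v3: (MP_af9036_an): `q = 0` in case (Z)
-/

set_option autoImplicit false

open Complex Metric Set Filter Topology MeasureTheory

noncomputable section

namespace V3

theorem PQ0_small (a ε : ℝ) (hε : 0 < ε) :
    ∀ᶠ η : ℝ in atTop, a * Real.exp (-(2 * Real.pi * η)) < ε := by
  have h : Tendsto (fun η : ℝ => a * Real.exp (-(2 * Real.pi * η))) atTop (𝓝 (a * 0)) := by
    apply Tendsto.const_mul
    apply Real.tendsto_exp_neg_atTop_nhds_zero.comp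
    exact tendsto_id.const_mul_atTop (by positivity)
  rw [mul_zero] at h
  exact h.eventually (gt_mem_nhds hε)

theorem PQ0_cont (t : ℂ) (ht : t ≠ 0) (B : ℂ → ℂ) (hB : DifferentiableOn ℂ B (ZL t)ᶜ) (η : ℝ)
    (hη : η ≠ 0) : Continuous (fun s : ℝ => B (t * (s + η * I))) := by
  refine ContinuousOn.comp_continuous hB.continuousOn (by fun_prop) (fun s => ?_)
  rintro ⟨n, hn⟩
  have hn' : (n : ℂ) * t = t * (s + η * I) := hn
  rw [mul_comm] at hn'
  have h := mul_left_cancel₀ ht hn'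
  have h2 := congrArg Complex.im h
  simp at h2
  exact hη h2.symm

theorem PQ0_nz (t : ℂ) (ht : t ≠ 0) : (2 * Real.pi * I / t) ^ 2 ≠ 0 := by
  apply pow_ne_zero
  apply div_ne_zero _ ht
  have : (Real.pi : ℂ) ≠ 0 := by exact_mod_cast Real.pi_ne_zero
  simp [this]

theorem PQ0_normslice (c : ℂ) (r : ℝ) : ‖c * (Real.exp r : ℂ)‖ = ‖c‖ * Real.exp r := by
  rw [norm_mul, Complex.norm_real, Real.norm_of_nonneg (Real.exp_pos r).le]

theorem PQ0 (hPPE : PPE_stmt) (hPFO : PFO_stmt) (hPPH : PPH_stmt) (hPSL : PSL_stmt)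
    (hPIN : PIN_stmt) : PQ0_stmt := by
  intro P A g B v q θ t α β hL ht hP hA hαβ hB
  obtain ⟨-, hper, -, -⟩ := hPPE P A g B v q θ t hL ht hP hA
  obtain ⟨c, hc, hc0⟩ := hPFO q t hL.qd ht hper
  have hαβ0 : α ≠ 0 ∨ β ≠ 0 := by
    by_contra hcon
    push Not at hcon
    rw [hcon.1, hcon.2, add_zero] at hαβ
    exact PQ0_nz t ht hαβ.symm
  obtain ⟨K, Y₀, j₁, j₂, c₁, c₂, hY₀, hj₁, hj₂, hc₁, hc₂, hup, hlo⟩ :=
    hPPH B t α β ht hαβ0 (by intro x hx; exact hB x (by rw [hP]; exact hx))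
  obtain ⟨C, hC⟩ := hPSL P A g B v q θ t hL ht hP
  have hBd : DifferentiableOn ℂ B (ZL t)ᶜ := by rw [← hP]; exact hL.Bd
  -- upper end
  have hneg : ∀ n : ℤ, n ≤ 0 → c n = 0 := by
    intro n hn
    by_contra hcn
    have hcn' : 0 < ‖c n‖ := norm_pos_iff.2 hcn
    have hev : ∀ᶠ η : ℝ in atTop, |K| * Real.exp (-(2 * Real.pi * η)) < 1 / 4 ∧
        ‖c j₁‖ * Real.exp (-(2 * Real.pi * η)) < ‖c n‖ / 4 ∧ Y₀ ≤ η :=
      (PQ0_small |K| (1 / 4) (by norm_num)).and
        ((PQ0_small ‖c j₁‖ (‖c n‖ / 4) (by positivity)).and (eventually_ge_atTop Y₀))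
    obtain ⟨Y₁, hY₁⟩ := eventually_atTop.1 hev
    have hlow : ∀ η : ℝ, Y₁ ≤ η → ‖c n‖ / 2 ≤ ∫ s in (0 : ℝ)..1, En θ B q (t * (s + η * I)) := by
      intro η hη
      obtain ⟨h1, h2, h3⟩ := hY₁ η hη
      have hη0 : 0 < η := lt_of_lt_of_le hY₀ h3
      have hin := hPIN B q θ t c₁ j₁ n η (|K| * Real.exp (-(2 * Real.pi * η))) hL.qd
        (PQ0_cont t ht B hBd η hη0.ne') hL.th hc₁ (by positivity) (by linarith)
        (fun s => le_trans (hup s η h3)
          (mul_le_mul_of_nonneg_right (le_abs_self K) (Real.exp_pos _).le))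
      rw [hc n η, hc j₁ η, PQ0_normslice, PQ0_normslice] at hin
      have e1 : 1 ≤ Real.exp (-(2 * Real.pi * n * η)) := by
        apply Real.one_le_exp
        have hn' : (n : ℝ) ≤ 0 := by exact_mod_cast hn
        have : 0 ≤ 2 * Real.pi * (-(n : ℝ)) * η := by
          have := neg_nonneg.2 hn'
          positivity
        linarith
      have e2 : Real.exp (-(2 * Real.pi * j₁ * η)) ≤ Real.exp (-(2 * Real.pi * η)) := by
        apply Real.exp_le_exp.2
        have hj' : (1 : ℝ) ≤ j₁ := by exact_mod_cast hj₁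
        have : 0 ≤ 2 * Real.pi * ((j₁ : ℝ) - 1) * η := by
          have := sub_nonneg.2 hj'
          positivity
        linarith
      have e3 : ‖c j₁‖ * Real.exp (-(2 * Real.pi * j₁ * η)) ≤ ‖c n‖ / 4 :=
        le_trans (mul_le_mul_of_nonneg_left e2 (norm_nonneg _)) h2.le
      have e4 : (1 - |K| * Real.exp (-(2 * Real.pi * η))) * ‖c n‖ ≥ 3 / 4 * ‖c n‖ :=
        mul_le_mul_of_nonneg_right (by linarith) (norm_nonneg _)
      have e5 : (1 - |K| * Real.exp (-(2 * Real.pi * η))) * (‖c n‖ * Real.exp (-(2 * Real.pi * n * η))) ≥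
          (1 - |K| * Real.exp (-(2 * Real.pi * η))) * ‖c n‖ := by
        apply mul_le_mul_of_nonneg_left _ (by linarith)
        exact le_mul_of_one_le_right (norm_nonneg _) e1
      linarith
    have hY : Y₁ < Y₁ + (|C| + 1) / (‖c n‖ / 2) := by
      have : 0 < (|C| + 1) / (‖c n‖ / 2) := by positivity
      linarith
    have hfin := hC Y₁ (Y₁ + (|C| + 1) / (‖c n‖ / 2)) (‖c n‖ / 2) hY (by positivity)
      (fun η hη => hlow η hη.1.le)
    have heq : ‖c n‖ / 2 * (Y₁ + (|C| + 1) / (‖c n‖ / 2) - Y₁) = |C| + 1 := by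
      field_simp
      ring
    rw [heq] at hfin
    linarith [le_abs_self C]
  -- lower end
  have hpos : ∀ n : ℤ, 1 ≤ n → c n = 0 := by
    intro n hn
    by_contra hcn
    have hcn' : 0 < ‖c n‖ := norm_pos_iff.2 hcn
    have hev : ∀ᶠ η : ℝ in atTop, |K| * Real.exp (-(2 * Real.pi * η)) < 1 / 2 ∧ Y₀ ≤ η :=
      (PQ0_small |K| (1 / 2) (by norm_num)).and (eventually_ge_atTop Y₀)
    obtain ⟨Y₁, hY₁⟩ := eventually_atTop.1 hev
    have hlow : ∀ η : ℝ, η ≤ -Y₁ → ‖c n‖ / 2 ≤ ∫ s in (0 : ℝ)..1, En θ B q (t * (s + η * I)) := by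
      intro η hη
      obtain ⟨h1, h3⟩ := hY₁ (-η) (by linarith)
      have hη0 : η < 0 := by linarith
      have hexp : Real.exp (-(2 * Real.pi * -η)) = Real.exp (2 * Real.pi * η) := by
        congr 1
        ring
      rw [hexp] at h1
      have hin := hPIN B q θ t c₂ j₂ n η (|K| * Real.exp (2 * Real.pi * η)) hL.qd
        (PQ0_cont t ht B hBd η hη0.ne) hL.th hc₂ (by positivity) (by linarith)
        (fun s => le_trans (hlo s η (by linarith))
          (mul_le_mul_of_nonneg_right (le_abs_self K) (Real.exp_pos _).le))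
      rw [hc n η, hc j₂ η, hneg j₂ hj₂, zero_mul, norm_zero, sub_zero, PQ0_normslice] at hin
      have e1 : 1 ≤ Real.exp (-(2 * Real.pi * n * η)) := by
        apply Real.one_le_exp
        have hn' : (0 : ℝ) ≤ n := by
          have : (0 : ℤ) ≤ n := by omega
          exact_mod_cast this
        have : 0 ≤ 2 * Real.pi * (n : ℝ) * (-η) := by
          have := (neg_pos.2 hη0).le
          positivity
        linarith
      have e4 : (1 - |K| * Real.exp (2 * Real.pi * η)) * ‖c n‖ ≥ 1 / 2 * ‖c n‖ :=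
        mul_le_mul_of_nonneg_right (by linarith) (norm_nonneg _)
      have e5 : (1 - |K| * Real.exp (2 * Real.pi * η)) * (‖c n‖ * Real.exp (-(2 * Real.pi * n * η))) ≥
          (1 - |K| * Real.exp (2 * Real.pi * η)) * ‖c n‖ := by
        apply mul_le_mul_of_nonneg_left _ (by linarith)
        exact le_mul_of_one_le_right (norm_nonneg _) e1
      linarith
    have hY : -(Y₁ + (|C| + 1) / (‖c n‖ / 2)) < -Y₁ := by
      have : 0 < (|C| + 1) / (‖c n‖ / 2) := by positivity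
      linarith
    have hfin := hC (-(Y₁ + (|C| + 1) / (‖c n‖ / 2))) (-Y₁) (‖c n‖ / 2) hY (by positivity)
      (fun η hη => hlow η hη.2.le)
    have heq : ‖c n‖ / 2 * (-Y₁ - -(Y₁ + (|C| + 1) / (‖c n‖ / 2))) = |C| + 1 := by
      field_simp
      ring
    rw [heq] at hfin
    linarith [le_abs_self C]
  refine hc0 (fun n => ?_)
  rcases le_or_gt n 0 with h | h
  · exact hneg n h
  · exact hpos n (by omega)

end V3
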