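import Pool.Agent.helper10.V3.SpecL
import Pool.Agent.helper36.V3.SpecP

/-!
# Module STA of project v3: (MP_af9036_an): the start of the propagation
-/

set_option autoImplicit false

open Complex Metric Set Filter Topology MeasureTheory MPS

noncomputable section

namespace V3S

theorem STA (hSTART : START_stmt) (hCNF : CNF_stmt) (hLPI : LPI_stmt) (hLMB : LMB_stmt)
    (hBA1 : BA1_stmt) : STA_stmt := by
  intro n ra Cf D hS
  obtain ⟨x₀, hx₀, hctl⟩ := hSTART n ra Cf D hS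
  obtain ⟨c, C, x₁, x₂, hconf, hzz, hB⟩ := hCNF n ra Cf D hS
  obtain ⟨-, -, -, hclosed, -, -, -⟩ := hLPI n ra Cf D hS
  obtain ⟨hBd, hBu, -, -, -⟩ := hLMB n ra Cf D hS
  have hx1 : Tendsto x₁ UF (𝓝 x₀) := by
    have heq : x₁ = fun m => (D m).xx ((D m).ψ 0 (1 / 4)) := by
      funext m
      obtain ⟨-, -, hxx, -⟩ := hBA1 n ra Cf (D m) (hS.good m)
      rw [← hzz m, hxx]
    rw [heq]
    exact hx₀
  have hc := hconf.c0
  have hhx : ∀ᶠ m in UF, ∀ l : ZMod (D m).k, c ≤ ‖x₁ m - (D m).p l‖ := by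
    have := hconf.hx
    filter_upwards [this] with m hm
    exact fun l => (hm.2.2.2.1 l).1
  have hnear : ∀ ε > (0 : ℝ), ∀ᶠ m in UF, ‖x₁ m - x₀‖ < ε := by
    intro ε hε
    have := (Metric.tendsto_nhds.1 hx1) ε hε
    filter_upwards [this] with m hm
    rwa [dist_eq_norm] at hm
  have hP : x₀ ∉ Pin D := by
    intro hp
    have h1 := hp (c / 2) (by positivity)
    obtain ⟨m, h1, h2, h3⟩ := (h1.and ((hnear (c / 2) (by positivity)).and hhx)).exists
    obtain ⟨l, hl⟩ := h1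
    have h4 := h3 l
    have h5 : ‖x₁ m - (D m).p l‖ ≤ ‖x₁ m - x₀‖ + ‖(D m).p l - x₀‖ := by
      have := norm_sub_le (x₁ m - x₀) ((D m).p l - x₀)
      simpa using this
    linarith
  refine ⟨x₀, ⟨hP, ?_⟩, hctl⟩
  intro hzero
  have hopen : IsOpen (Pin D)ᶜ := hclosed.isOpen_compl
  obtain ⟨ε, hε, hball⟩ := Metric.isOpen_iff.1 hopen x₀ hP
  have hK : closedBall x₀ (ε / 2) ⊆ (Pin D)ᶜ := (closedBall_subset_ball (by linarith)).trans hball
  have hunif := hBu (closedBall x₀ (ε / 2)) (isCompact_closedBall _ _) hK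
  have hcont : ContinuousAt (Bin D) x₀ := (hBd.differentiableAt (hopen.mem_nhds hP)).continuousAt
  have h1 := (Metric.tendsto_nhds.1 (hcont.tendsto.comp hx1)) (c / 3) (by positivity)
  have h2 := (Metric.tendstoUniformlyOn_iff.1 hunif) (c / 3) (by positivity)
  obtain ⟨m, h1, h2, h3⟩ := (h1.and (h2.and (hnear (ε / 2) (by positivity)))).exists
  have h4 := h2 (x₁ m) (by rw [mem_closedBall, dist_eq_norm]; exact h3.le)
  simp only [Function.comp_apply] at h1
  rw [hzero, dist_eq_norm, sub_zero] at h1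
  rw [dist_eq_norm] at h4
  have h5 := hB m
  have h6 : ‖(D m).B (x₁ m)‖ ≤ ‖Bin D (x₁ m)‖ + ‖Bin D (x₁ m) - (D m).B (x₁ m)‖ := by
    have := norm_sub_le (Bin D (x₁ m)) (Bin D (x₁ m) - (D m).B (x₁ m))
    simpa using this
  linarith

end V3S
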